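import Mathlib
import Pool.Agent.Lib.MP_851c4e_ag.Main

set_option autoImplicit false

namespace Pool.Agent.Results.MP_851c4e_ag.NotAComponent

open Pool.Agent.Lib.MP_851c4e_ag

/-- The closure of the very compressed locus `VC_{3,96}` is properly contained in an irreducible
closed subset of `Hilb_96(A^3)`. -/
theorem result (k : Type) [Field k] [IsAlgClosed k] [CharZero k] :
    ∃ Z : Set (Hilb k 96), IsClosed Z ∧ IsIrreducible Z ∧ closure (VC k) ⊂ Z :=
  main

end Pool.Agent.Results.MP_851c4e_ag.NotAComponent
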