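import Mathlib
import Pool.Agent.Lib.MP_851c4e_ag.Win.Final

set_option autoImplicit false

namespace Pool.Agent.Results.MP_851c4e_ag.Window

open Pool.Agent.Lib.MP_851c4e_ag Pool.Agent.Lib.MP_851c4e_ag.Win

/-- For `d ≥ 97` outside a narrow window, the closure of the very compressed locus `VC_{3,d}` is
properly contained in an irreducible closed subset of `Hilb_d(A^3)`. -/
theorem result (k : Type) [Field k] [IsAlgClosed k] [CharZero k] (d s a : ℕ)
    (hd : d = (s + 2).choose 3 + a) (h97 : 97 ≤ d) (ha : 1 ≤ a) (ha' : a ≤ (s + 2).choose 2)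
    (h : 2 * a ≤ (s + 1).choose 2 ∨ s ^ 4 ≤ (2 * a - (s + 1).choose 2) ^ 3 ∨
      5 * (s + 2).choose 2 ≤ 2 * (s + 3).choose 2 + 5 * a ∨
      ∃ r, 1 ≤ r ∧ (2 * r + 3) * (s + 2).choose 2 < (r + 1) * (s + 3).choose 2 + (2 * r + 3) * a ∧
        2 * r * a + 3 * r ^ 2 + 2 * r + 2 < r * (s + 1).choose 2 + a) :
    ∃ Z : Set (Hilb k d), IsClosed Z ∧ IsIrreducible Z ∧ closure (VComp k d s a) ⊂ Z :=
  main d s a hd h97 ha ha' h

end Pool.Agent.Results.MP_851c4e_ag.Window
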